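import Pool.Agent.Y996.QH.Stm

/-!
Project QH: lower bound of the crossing probability in the half-plane (`S_JL → S_PL`).
-/

set_option autoImplicit false

namespace Pool.Agent.Y270.QH

open MeasureTheory Set H974
open Pool.Agent.Y996.RD (pos nv Size EN pc nv_abs nv_mem lat_far lat_close)
open Pool.Agent.Y996.QH

/-- the nearest vertex of a point of the half-plane is in the half-plane -/
theorem nv_snd_nonneg {ε : ℝ} (hε : 0 < ε) {z : ℂ} (h0 : 0 ≤ z.im) : 0 ≤ (nv ε z).2 := by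
  have h1 := (abs_le.mp (nv_abs hε z).2).1
  by_contra hcon
  push Not at hcon
  have h2 : (nv ε z).2 ≤ -1 := by omega
  have h3 : ((nv ε z).2 : ℝ) ≤ -1 := by exact_mod_cast h2
  nlinarith

theorem nv_nearH {ε : ℝ} (hε : 0 < ε) {K : Set ℂ} {z : ℂ} (hz : z ∈ K) (h0 : 0 ≤ z.im) :
    nv ε z ∈ nearH ε K :=
  ⟨nv_snd_nonneg hε h0, z, hz, nv_mem hε z⟩

/-- the set reaches distance `3m` -/
theorem size_reachH {ε : ℝ} (hε : 0 < ε) {K : Set ℂ} {z : ℂ} {d ρ : ℝ}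
    (hS : GoodH ε K z d ρ) (hm : 0 < ⌊ρ / (16 * ε)⌋₊) :
    ∃ b, Reach (EN (nearH ε K)) (nv ε z) b ∧
      (b.1 ≤ (nv ε z).1 - (3 * ⌊ρ / (16 * ε)⌋₊ : ℕ) ∨ (nv ε z).1 + (3 * ⌊ρ / (16 * ε)⌋₊ : ℕ) ≤ b.1 ∨
      b.2 ≤ (nv ε z).2 - (3 * ⌊ρ / (16 * ε)⌋₊ : ℕ) ∨
        (nv ε z).2 + (3 * ⌊ρ / (16 * ε)⌋₊ : ℕ) ≤ b.2) := by
  obtain ⟨x, hx, hd, hreach⟩ := hS.chain
  have hρ := hS.size.pos
  refine ⟨nv ε x, hreach, ?_⟩
  have h1 : (⌊ρ / (16 * ε)⌋₊ : ℝ) ≤ ρ / (16 * ε) := Nat.floor_le (by positivity)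
  have h2 : (1 : ℝ) ≤ ⌊ρ / (16 * ε)⌋₊ := by exact_mod_cast hm
  have h3 : ε * (⌊ρ / (16 * ε)⌋₊ : ℝ) ≤ ρ / 16 := by
    calc ε * (⌊ρ / (16 * ε)⌋₊ : ℝ) ≤ ε * (ρ / (16 * ε)) := mul_le_mul_of_nonneg_left h1 hε.le
      _ = ρ / 16 := by field_simp
  have h4 : 16 * ε ≤ ρ := by nlinarith
  refine lat_far hε (r := ρ / 2) (e1 := ε / 2) (e2 := ε / 2) (by positivity)
    (by rw [dist_comm]; exact hd) (nv_abs hε z) (nv_abs hε x) ?_
  push_cast
  nlinarith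

/-- the horizontal translate of a set of vertices, cut at the vertical axis -/
def trN (T : ℤ) (N : Set Vtx) : Set Vtx := {v | (v.1 - T, v.2) ∈ N ∧ 0 ≤ v.1}

/-- a chain leaving a box stays in the cut set until the boundary of the box -/
theorem trN_reach {N : Set Vtx} {T : ℤ} {x b : Vtx} {M : ℕ} (hT : (M : ℤ) ≤ x.1 + T)
    (h : Reach (EN N) x b)
    (hb : b.1 ≤ x.1 - (M : ℤ) ∨ x.1 + (M : ℤ) ≤ b.1 ∨ b.2 ≤ x.2 - (M : ℤ) ∨ x.2 + (M : ℤ) ≤ b.2) :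
    ∃ b' : Vtx, Reach (EN (trN T N)) (x.1 + T, x.2) b' ∧ M ≤ TH976.sd b' (x.1 + T, x.2) := by
  obtain ⟨w, h1, h2, h3⟩ := first_exit (a := x.1 - M) (b := x.1 + M) (c := x.2 - M)
    (d := x.2 + M) (by unfold inR; omega) h hb
  have h4 := (trl T 0).reach h3
  refine ⟨(trl T 0).ψ w, ?_, ?_⟩
  · obtain ⟨x1, x2⟩ := x
    rw [trl_ψ] at h4
    simp only [add_zero] at h4
    refine h4.mono ?_
    rintro _ ⟨⟨a, b, c⟩, ⟨⟨h5, h6⟩, h7⟩, rfl⟩
    simp only at hT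
    rw [trl_φ]
    cases c
    · rw [Finset.mem_coe, mem_RE_false] at h7
      rw [tgt_false] at h6
      rw [src_mk] at h5
      refine ⟨?_, ?_⟩
      · rw [src_mk]
        refine ⟨?_, by simp only; omega⟩
        simp only [add_sub_cancel_right, add_zero]
        exact h5
      · rw [tgt_false]
        refine ⟨?_, by simp only; omega⟩
        simp only [add_sub_cancel_right, add_zero]
        exact h6
    · rw [Finset.mem_coe, mem_RE_true] at h7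
      rw [tgt_true] at h6
      rw [src_mk] at h5
      refine ⟨?_, ?_⟩
      · rw [src_mk]
        refine ⟨?_, by simp only; omega⟩
        simp only [add_sub_cancel_right, add_zero]
        exact h5
      · rw [tgt_true]
        refine ⟨?_, by simp only; omega⟩
        simp only [add_zero]
        rw [show a + T + 1 - T = a + 1 by ring]
        exact h6
  · obtain ⟨w1, w2⟩ := w
    rw [trl_ψ]
    unfold TH976.sd
    unfold inR at h1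
    simp only at h1 h2 ⊢
    omega

/-- comparison of the ratios -/
theorem ratio_geH {ε d ρ : ℝ} (hε : 0 < ε) (hρ : 0 < ρ) (hd : ρ ≤ d) :
    ρ / d / 48 ≤ ((⌊ρ / (16 * ε)⌋₊ : ℝ) + 1) / ((⌈d / ε⌉₊ + 1 : ℕ) : ℝ) := by
  have hd0 : 0 < d := hρ.trans_le hd
  obtain ⟨t, ht⟩ : ∃ t, t = ρ / ε := ⟨_, rfl⟩
  obtain ⟨s, hs⟩ : ∃ s, s = d / ε := ⟨_, rfl⟩
  have ht0 : 0 < t := by rw [ht]; positivity
  have hs0 : 0 < s := by rw [hs]; positivity
  have hts : t ≤ s := by rw [ht, hs]; gcongr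
  have e1 : ρ / (16 * ε) = t / 16 := by rw [ht]; field_simp
  have e2 : ρ / d = t / s := by rw [ht, hs]; field_simp
  rw [e1, e2, ← hs]
  have h1 : t / 16 ≤ (⌊t / 16⌋₊ : ℝ) + 1 := (Nat.lt_floor_add_one (t / 16)).le
  have h1' : (1:ℝ) ≤ (⌊t / 16⌋₊ : ℝ) + 1 := by
    have : (0:ℝ) ≤ (⌊t / 16⌋₊ : ℝ) := by positivity
    linarith
  have h2 : ((⌈s⌉₊ + 1 : ℕ) : ℝ) ≤ s + 2 := by
    push_cast
    have := (Nat.ceil_lt_add_one hs0.le).le
    linarith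
  have h0 : (0:ℝ) < ((⌈s⌉₊ + 1 : ℕ) : ℝ) := by positivity
  rcases le_total 1 s with h | h
  · rw [div_div, div_le_div_iff₀ (by positivity) h0]
    calc t * ((⌈s⌉₊ + 1 : ℕ) : ℝ) ≤ t * (3 * s) := by
          apply mul_le_mul_of_nonneg_left _ ht0.le
          linarith
      _ = t / 16 * (s * 48) := by ring
      _ ≤ _ := mul_le_mul_of_nonneg_right h1 (by positivity)
  · have h4 : t / s ≤ 1 := by rw [div_le_one hs0]; exact hts
    calc t / s / 48 ≤ 1 / 3 := by linarith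
      _ ≤ 1 / ((⌈s⌉₊ + 1 : ℕ) : ℝ) := by
          apply one_div_le_one_div_of_le h0
          linarith
      _ ≤ _ := by gcongr

/-- the heights -/
theorem height {ε : ℝ} (hε : 0 < ε) {K : Set ℂ} {z : ℂ} {d ρ : ℝ} (hS : GoodH ε K z d ρ) :
    (nv ε z).2 ≤ 64 * ((⌊ρ / (16 * ε)⌋₊ : ℤ) + 1) ∨
      (7 * ((⌈d / ε⌉₊ + 1 : ℕ) : ℤ) : ℤ) ≤ 1000 * ((⌊ρ / (16 * ε)⌋₊ : ℤ) + 1) := by
  have hρ := hS.size.pos
  have h1 : ρ / (16 * ε) ≤ (⌊ρ / (16 * ε)⌋₊ : ℝ) + 1 := (Nat.lt_floor_add_one _).le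
  have h2 : ρ / ε ≤ 16 * ((⌊ρ / (16 * ε)⌋₊ : ℝ) + 1) := by
    have e : ρ / ε = 16 * (ρ / (16 * ε)) := by field_simp
    rw [e]; linarith
  have h3 : (1:ℝ) ≤ (⌊ρ / (16 * ε)⌋₊ : ℝ) + 1 := by
    have : (0:ℝ) ≤ (⌊ρ / (16 * ε)⌋₊ : ℝ) := by positivity
    linarith
  rcases hS.base with h | ⟨a, ha, -⟩
  · right
    have hd0 : 0 < d := hρ.trans_le hS.size.le
    have h4 : ((⌈d / ε⌉₊ : ℕ) : ℝ) ≤ d / ε + 1 := (Nat.ceil_lt_add_one (by positivity)).le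
    rw [← h] at h4 ⊢
    have h5 : (7 * ((⌈ρ / ε⌉₊ + 1 : ℕ) : ℝ) : ℝ) ≤ 1000 * ((⌊ρ / (16 * ε)⌋₊ : ℝ) + 1) := by
      push_cast
      linarith
    exact_mod_cast h5
  · left
    have h4 : z.im ≤ ρ := by
      have h5 := Pool.Agent.Y996.RD.abs_im_le z (a : ℂ)
      rw [Complex.ofReal_im, sub_zero] at h5
      exact (le_abs_self _).trans (h5.trans ha)
    have h6 := (abs_le.mp (nv_abs hε z).2).2
    have h7 : ε * ((nv ε z).2 : ℝ) ≤ ε * (ρ / ε + 1 / 2) := by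
      have e : ε * (ρ / ε + 1 / 2) = ρ + ε / 2 := by field_simp
      rw [e]; linarith
    have h8 := le_of_mul_le_mul_left h7 hε
    have h9 : ((nv ε z).2 : ℝ) ≤ 64 * ((⌊ρ / (16 * ε)⌋₊ : ℝ) + 1) := by linarith
    exact_mod_cast h9

/-- translation of an event of connection -/
theorem transfer {ε : ℝ} {K L : Set ℂ} {x : Vtx} {n : ℕ} {T : ℤ} (hT : (n : ℤ) ≤ x.1) :
    Pr (fun _ => (1/2:ℝ)) (TH976.qb x n) (fun F => ∃ u ∈ trN T (nearH ε K),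
      ∃ v ∈ trN T (nearH ε L), Reach (↑F : Set Edg) u v) ≤ crossH ε K L := by
  obtain ⟨S, hS⟩ : ∃ S : Finset Edg, S = RE (x.1 - n - T) (x.1 + n - T) (max 0 (x.2 - n))
    (x.2 + n) := ⟨_, rfl⟩
  have e1 : TH976.qb x n = (trl T 0).mp S := by
    rw [hS, trl_RE]
    unfold TH976.qb
    congr 1
    · omega
    · omega
    · omega
    · omega
  rw [e1, LSym.pr]
  have e : (fun _ : Edg => (1/2:ℝ)) = fun _ => (Pool.Agent.Y996.RD.hlf : ℝ) := rfl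
  rw [e, ← law_event Pool.Agent.Y996.RD.hlf]
  unfold crossH
  refine measureReal_mono ?_
  rintro ω ⟨⟨u1, u2⟩, hu, ⟨v1, v2⟩, hv, hr⟩
  refine ⟨(u1 - T, u2), hu.1, (v1 - T, v2), hv.1, ?_⟩
  rw [LSym.coe_mp] at hr
  have hr' : Reach ((trl T 0).φ '' ↑(FF S ω)) ((trl T 0).ψ (u1 - T, u2))
      ((trl T 0).ψ (v1 - T, v2)) := by
    rw [trl_ψ, trl_ψ]
    simp only [sub_add_cancel, add_zero]
    exact hr
  rw [LSym.reach_iff, FF_coe] at hr'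
  refine hr'.mono ?_
  rintro ⟨a, b, c⟩ ⟨h1, h2⟩
  refine ⟨h1, ?_⟩
  rw [hS, Finset.mem_coe] at h2
  show 0 ≤ b
  cases c
  · rw [mem_RE_false] at h2; omega
  · rw [mem_RE_true] at h2; omega

/-- **lower bound of the crossing probability in the half-plane** -/
theorem pl : S_JL → S_PL := by
  rintro ⟨c, hc, hJL⟩
  refine ⟨c * ((1:ℝ) / 2304) ^ ((1:ℝ)/3), mul_pos hc (Real.rpow_pos_of_pos (by norm_num) _), ?_⟩
  intro ε K L z w ρ σ hε hSK hSL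
  obtain ⟨d, hd⟩ : ∃ d, d = dist z w := ⟨_, rfl⟩
  rw [← hd] at hSK hSL ⊢
  have hd0 : 0 < d := hSK.size.pos.trans_le hSK.size.le
  have hρ := hSK.size.pos
  have hσ := hSL.size.pos
  have hz0 : 0 ≤ z.im := hSK.sub z hSK.size.mem
  have hw0 : 0 ≤ w.im := hSL.sub w hSL.size.mem
  obtain ⟨D, hD⟩ : ∃ D : ℕ, D = ⌈d / ε⌉₊ + 1 := ⟨_, rfl⟩
  have hDr : d / ε + 1 ≤ D := by
    rw [hD]; push_cast
    linarith [Nat.le_ceil (d / ε)]
  have hDε : d + ε ≤ ε * D := by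
    calc d + ε = ε * (d / ε + 1) := by field_simp
      _ ≤ _ := mul_le_mul_of_nonneg_left hDr hε.le
  have hclose := lat_close hε (r := d) (e1 := ε / 2) (e2 := ε / 2) (z := z) (w := w)
    (by rw [hd]) (nv_abs hε z) (nv_abs hε w) (n := D) (by linarith)
  have hfl : ∀ r : ℝ, 0 < r → r ≤ d → 3 * ⌊r / (16 * ε)⌋₊ ≤ D := by
    intro r hr hrd
    have h1 : (⌊r / (16 * ε)⌋₊ : ℝ) ≤ r / (16 * ε) := Nat.floor_le (by positivity)
    have h2 : ((3 * ⌊r / (16 * ε)⌋₊ : ℕ) : ℝ) ≤ D := by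
      push_cast
      calc 3 * (⌊r / (16 * ε)⌋₊ : ℝ) ≤ 3 * (r / (16 * ε)) := by linarith
        _ = 3 / 16 * (r / ε) := by field_simp
        _ ≤ 3 / 16 * (d / ε) := by gcongr
        _ ≤ D := by
            have : 0 ≤ d / ε := by positivity
            linarith
    exact_mod_cast h2
  have hm1 := hfl ρ hρ hSK.size.le
  have hm2 := hfl σ hσ hSL.size.le
  have hh1 := height hε hSK
  have hh2 := height hε hSL
  rw [← hD] at hh1 hh2
  have hr1 := ratio_geH hε hρ hSK.size.le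
  have hr2 := ratio_geH hε hσ hSL.size.le
  rw [← hD] at hr1 hr2
  have hs1 := size_reachH hε hSK
  have hs2 := size_reachH hε hSL
  obtain ⟨m1, hm1'⟩ : ∃ m1 : ℕ, m1 = ⌊ρ / (16 * ε)⌋₊ := ⟨_, rfl⟩
  obtain ⟨m2, hm2'⟩ : ∃ m2 : ℕ, m2 = ⌊σ / (16 * ε)⌋₊ := ⟨_, rfl⟩
  rw [← hm1'] at hm1 hh1 hr1 hs1
  rw [← hm2'] at hm2 hh2 hr2 hs2
  have hD1 : 1 ≤ D := by omega
  have hz2 := nv_snd_nonneg hε hz0
  have hw2 := nv_snd_nonneg hε hw0
  have hmemz := nv_nearH hε hSK.size.mem hz0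
  have hmemw := nv_nearH hε hSL.size.mem hw0
  obtain ⟨X, hX⟩ : ∃ X : Vtx, X = nv ε z := ⟨_, rfl⟩
  obtain ⟨Y, hY⟩ : ∃ Y : Vtx, Y = nv ε w := ⟨_, rfl⟩
  rw [← hX] at hclose hh1 hs1 hz2 hmemz
  rw [← hY] at hclose hh2 hs2 hw2 hmemw
  have hc1 := abs_le.mp hclose.1
  have hc2 := abs_le.mp hclose.2
  obtain ⟨T, hT⟩ : ∃ T : ℤ, T = 9 * (D : ℤ) - X.1 := ⟨_, rfl⟩
  have hJ := hJL m1 m2 D (X.1 + T, X.2) (Y.1 + T, Y.2) (trN T (nearH ε K)) (trN T (nearH ε L))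
    hD1 hm1 hm2 (by unfold TH976.sd; simp only; omega)
    (by unfold TH976.InV; simp only; omega) (by unfold TH976.InV; simp only; omega)
    (by simp only; omega) hh1 hh2
    (by rintro ⟨v1, v2⟩ ⟨h1, h2⟩; exact ⟨h2, h1.1⟩)
    (by rintro ⟨v1, v2⟩ ⟨h1, h2⟩; exact ⟨h2, h1.1⟩)
    (by
      refine ⟨?_, by simp only; omega⟩
      simp only [add_sub_cancel_right]
      exact hmemz)
    (by
      refine ⟨?_, by simp only; omega⟩
      simp only [add_sub_cancel_right]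
      exact hmemw)
    (by
      intro h0
      obtain ⟨b, hb1, hb2⟩ := hs1 h0
      exact trN_reach (by push_cast; omega) hb1 hb2)
    (by
      intro h0
      obtain ⟨b, hb1, hb2⟩ := hs2 h0
      exact trN_reach (by push_cast; omega) hb1 hb2)
  have htr := transfer (ε := ε) (K := K) (L := L) (x := (X.1 + T, X.2)) (n := 8 * D) (T := T)
    (by simp only; push_cast; omega)
  refine le_trans ?_ (hJ.trans htr)
  rw [mul_assoc]
  apply mul_le_mul_of_nonneg_left _ hc.le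
  rw [← Real.mul_rpow (by norm_num) (by positivity)]
  apply Real.rpow_le_rpow (by positivity) _ (by norm_num)
  have n1 : 0 ≤ σ / d / 48 := by positivity
  have n2 : 0 ≤ ρ / d / 48 := by positivity
  calc (1:ℝ) / 2304 * (ρ / d * (σ / d)) = (ρ / d / 48) * (σ / d / 48) := by ring
    _ ≤ _ := mul_le_mul hr1 hr2 n1 (n2.trans hr1)

end Pool.Agent.Y270.QH
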